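import Pool.Agent.Helper40.JZ.Stmts
import Pool.Agent.Helper73.DZ.NRV

/-! NRT: averages of correlations are positive definite (MP_7a8f48_an). -/

open Finset Filter MeasureTheory Topology
open scoped ComplexConjugate InnerProductSpace

namespace Pool.Agent.Helper67.JZ

open Pool.Agent.Helper16.AZ (T E mm)
open Pool.Agent.Helper40.JZ
open Pool.Agent.Helper40.DZ.H73

/-- Gram vectors for sums of integrals of products of inner products -/
theorem gramF {Ω ι : Type} [MeasurableSpace Ω] [Fintype ι] (ν : Measure Ω) [IsFiniteMeasure ν]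
    {d : ℕ} (m : ℝ) (hm : 0 ≤ m) (u v : ι → ℕ → Ω → E d) (C : ℕ → ℝ)
    (hu : ∀ i k, AEStronglyMeasurable (u i k) ν) (hv : ∀ i k, AEStronglyMeasurable (v i k) ν)
    (bu : ∀ i k z, ‖u i k z‖ ≤ C k) (bv : ∀ i k z, ‖v i k z‖ ≤ C k) :
    ∃ (V : Type) (_ : NormedAddCommGroup V) (_ : InnerProductSpace ℂ V)
    (_ : CompleteSpace V) (w : ℕ → V), ∀ k k' : ℕ, (inner ℂ (w k) (w k') : ℂ) =
      (m : ℂ) * ∑ i, ∫ z, (inner ℂ (u i k z) (u i k' z) : ℂ) *
        conj (inner ℂ (v i k z) (v i k' z) : ℂ) ∂ν := by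
  have hmeas : ∀ i k, AEStronglyMeasurable (fun z => tens (u i k z) (v i k z)) ν :=
    fun i k => tens_cont.comp_aestronglyMeasurable ((hu i k).prodMk (hv i k))
  have hb : ∀ i k z, ‖tens (u i k z) (v i k z)‖ ≤ C k * C k := by
    intro i k z
    rw [tens_norm]
    exact mul_le_mul (bu i k z) (bv i k z) (norm_nonneg _) ((norm_nonneg _).trans (bu i k z))
  have hL : ∀ i k, MemLp (fun z => tens (u i k z) (v i k z)) 2 ν := fun i k =>
    MemLp.of_bound (hmeas i k) (C k * C k) (Eventually.of_forall (hb i k))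
  refine ⟨PiLp 2 (fun _ : ι => Lp (EuclideanSpace ℂ (Fin d × Fin d)) 2 ν), inferInstance,
    inferInstance, inferInstance,
    fun k => WithLp.toLp 2 fun i => ((Real.sqrt m : ℝ) : ℂ) • (hL i k).toLp, fun k k' => ?_⟩
  rw [PiLp.inner_apply, Finset.mul_sum]
  refine Finset.sum_congr rfl fun i _ => ?_
  show inner ℂ (((Real.sqrt m : ℝ) : ℂ) • (hL i k).toLp) (((Real.sqrt m : ℝ) : ℂ) •
    (hL i k').toLp) = _
  rw [inner_smul_left, inner_smul_right, Complex.conj_ofReal, ← mul_assoc, ← Complex.ofReal_mul,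
    Real.mul_self_sqrt hm, L2.inner_def]
  congr 1
  refine integral_congr_ae ?_
  filter_upwards [(hL i k).coeFn_toLp, (hL i k').coeFn_toLp] with z hz hz'
  rw [hz, hz', tens_inner]

theorem st_NRT : ST_NRT := by
  intro R d ι _ τ m g hm hτ hg
  choose C hC using fun k => (hg k).2
  exact gramF (mm R) m hm (fun i k y => g k (τ i y)) (fun _ k y => g k y) C
    (fun i k => (hg k).aesm.comp_measurePreserving (hτ i)) (fun _ k => (hg k).aesm)
    (fun i k z => hC k _) (fun _ k z => hC k z)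

end Pool.Agent.Helper67.JZ
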