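import Pool.Agent.Helper40.JZ.Stmts

/-! FIB: Parseval's formula in the last coordinate (MP_7a8f48_an). -/

open Finset Filter MeasureTheory Topology
open scoped ComplexConjugate InnerProductSpace

namespace Pool.Agent.Helper67.JZ

open Pool.Agent.Helper16.AZ (T mm)
open Pool.Agent.Helper40.JZ

/-- the measurable equivalence `(x, k) ↦ sn x k` -/
noncomputable def snE (r : ℕ) : T r × U ≃ᵐ T (r + 1) :=
  MeasurableEquiv.prodComm.trans
    (MeasurableEquiv.piFinSuccAbove (fun _ : Fin (r + 1) => U) (Fin.last r)).symm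

theorem snE_apply (r : ℕ) (z : T r × U) : snE r z = sn z.1 z.2 := by
  show Fin.insertNth (α := fun _ : Fin (r + 1) => U) (Fin.last r) z.2 z.1 = _
  rw [Fin.insertNth_last]
  rfl

theorem mp_snE (r : ℕ) : MeasurePreserving (snE r)
    ((mm r).prod (AddCircle.haarAddCircle : Measure U)) (mm (r + 1)) := by
  have h1 : MeasurePreserving
      (MeasurableEquiv.piFinSuccAbove (fun _ : Fin (r + 1) => U) (Fin.last r))
      (mm (r + 1)) ((AddCircle.haarAddCircle : Measure U).prod (mm r)) :=
    measurePreserving_piFinSuccAbove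
      (fun _ : Fin (r + 1) => (AddCircle.haarAddCircle : Measure U)) (Fin.last r)
  exact h1.symm.comp Measure.measurePreserving_swap

theorem mp_sn (r : ℕ) : MeasurePreserving (fun z : T r × U => sn z.1 z.2)
    ((mm r).prod (AddCircle.haarAddCircle : Measure U)) (mm (r + 1)) := by
  have h := mp_snE r
  have h2 : (snE r : T r × U → T (r + 1)) = fun z => sn z.1 z.2 := funext (snE_apply r)
  rwa [h2] at h

theorem norm_fourier (n : ℤ) (x : U) : ‖(fourier n x : ℂ)‖ = 1 := by
  rw [fourier_apply]
  exact Circle.norm_coe _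

/-- Parseval on the circle. -/
theorem parseval {g : U → ℂ} (hg : MemLp g 2 (AddCircle.haarAddCircle : Measure U)) :
    HasSum (fun a : ℤ => ‖∫ k, fourier (-a) k * g k ∂(AddCircle.haarAddCircle : Measure U)‖ ^ 2)
      (∫ k, ‖g k‖ ^ 2 ∂(AddCircle.haarAddCircle : Measure U)) := by
  have h := hasSum_sq_fourierCoeff (hg.toLp g)
  have e1 : fourierCoeff (hg.toLp g : U → ℂ) = fourierCoeff g :=
    fourierCoeff_congr_ae hg.coeFn_toLp
  rw [e1] at h
  have e2 : ∫ k, ‖(hg.toLp g : U → ℂ) k‖ ^ 2 ∂(AddCircle.haarAddCircle : Measure U) =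
      ∫ k, ‖g k‖ ^ 2 ∂(AddCircle.haarAddCircle : Measure U) := by
    apply integral_congr_ae
    filter_upwards [hg.coeFn_toLp] with k hk
    rw [hk]
  rw [e2] at h
  exact h

theorem st_FIB : ST_FIB := by
  intro r
  refine ⟨mp_sn r, ?_⟩
  intro G hG
  set ν : Measure U := AddCircle.haarAddCircle with hν
  -- the function on the product
  have hmp := mp_sn r
  have hF : MemLp (fun z : T r × U => G (sn z.1 z.2)) 2 ((mm r).prod ν) :=
    hG.comp_measurePreserving hmp
  have hFsq : Integrable (fun z : T r × U => ‖G (sn z.1 z.2)‖ ^ 2) ((mm r).prod ν) :=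
    hF.integrable_norm_pow (by norm_num)
  have hFi : Integrable (fun z : T r × U => G (sn z.1 z.2)) ((mm r).prod ν) :=
    hF.integrable (by norm_num)
  have htot : ∫ x, ∫ k, ‖G (sn x k)‖ ^ 2 ∂ν ∂(mm r) = ∫ y, ‖G y‖ ^ 2 ∂(mm (r + 1)) := by
    rw [← integral_prod _ hFsq]
    have h := (mp_snE r).integral_comp' (g := fun y => ‖G y‖ ^ 2)
    rw [← h]
    apply integral_congr_ae
    exact Eventually.of_forall fun z => by simp only [snE_apply]
  have hslice : ∀ᵐ x ∂(mm r), MemLp (fun k => G (sn x k)) 2 ν := by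
    filter_upwards [hFsq.prod_right_ae, hF.aestronglyMeasurable.prodMk_left] with x hx hx2
    exact (memLp_two_iff_integrable_sq_norm hx2).2 hx
  have hpars : ∀ᵐ x ∂(mm r), HasSum (fun a : ℤ => ‖fib G a x‖ ^ 2)
      (∫ k, ‖G (sn x k)‖ ^ 2 ∂ν) := by
    filter_upwards [hslice] with x hx
    exact parseval hx
  have hdom : Integrable (fun x => ∫ k, ‖G (sn x k)‖ ^ 2 ∂ν) (mm r) :=
    hFsq.integral_prod_left
  have hmeas : ∀ a : ℤ, AEStronglyMeasurable (fib G a) (mm r) := by
    intro a
    have h1 : AEStronglyMeasurable (fun z : T r × U => (fourier (-a) z.2 : ℂ) *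
        G (sn z.1 z.2)) ((mm r).prod ν) := by
      refine AEStronglyMeasurable.mul ?_ hF.aestronglyMeasurable
      exact ((fourier (-a)).continuous.comp continuous_snd).aestronglyMeasurable
    exact h1.integral_prod_right'
  have hle : ∀ a : ℤ, ∀ᵐ x ∂(mm r), ‖fib G a x‖ ^ 2 ≤ ∫ k, ‖G (sn x k)‖ ^ 2 ∂ν := by
    intro a
    filter_upwards [hpars] with x hx
    exact le_hasSum hx a fun b _ => by positivity
  have hint : ∀ a : ℤ, Integrable (fun x => ‖fib G a x‖ ^ 2) (mm r) := by
    intro a
    refine hdom.mono' ((hmeas a).norm.pow 2) ?_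
    filter_upwards [hle a] with x hx
    rw [Real.norm_of_nonneg (by positivity)]
    exact hx
  have hL : ∀ a : ℤ, MemLp (fib G a) 2 (mm r) := fun a =>
    (memLp_two_iff_integrable_sq_norm (hmeas a)).2 (hint a)
  refine ⟨hL, ?_, ?_, ?_⟩
  · have hsum : Summable fun a : ℤ => ∫ x, ‖(‖fib G a x‖ ^ 2 : ℝ)‖ ∂(mm r) := by
      refine summable_of_sum_le (c := ∫ y, ‖G y‖ ^ 2 ∂(mm (r + 1))) (fun a => by positivity) ?_
      intro s
      rw [← integral_finset_sum s fun a _ => (hint a).norm, ← htot]
      refine integral_mono_ae (integrable_finset_sum s fun a _ => (hint a).norm) hdom ?_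
      filter_upwards [hpars] with x hx
      have h2 : ∑ a ∈ s, ‖(‖fib G a x‖ ^ 2 : ℝ)‖ = ∑ a ∈ s, ‖fib G a x‖ ^ 2 :=
        Finset.sum_congr rfl fun a _ => Real.norm_of_nonneg (by positivity)
      show ∑ a ∈ s, ‖(‖fib G a x‖ ^ 2 : ℝ)‖ ≤ _
      rw [h2]
      exact sum_le_hasSum s (fun b _ => by positivity) hx
    have h := hasSum_integral_of_summable_integral_norm hint hsum
    have e : ∫ x, ∑' a : ℤ, ‖fib G a x‖ ^ 2 ∂(mm r) = ∫ y, ‖G y‖ ^ 2 ∂(mm (r + 1)) := by
      rw [← htot]
      apply integral_congr_ae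
      filter_upwards [hpars] with x hx
      exact hx.tsum_eq
    rw [e] at h
    exact h
  · have h := (mp_snE r).integral_comp' (g := G)
    rw [← h]
    have e : ∫ z, G (snE r z) ∂((mm r).prod ν) = ∫ z, G (sn z.1 z.2) ∂((mm r).prod ν) := by
      apply integral_congr_ae
      exact Eventually.of_forall fun z => by simp only [snE_apply]
    rw [e, integral_prod _ hFi]
    apply integral_congr_ae
    refine Eventually.of_forall fun x => ?_
    show ∫ k, G (sn x k) ∂ν = ∫ k, fourier (-0) k * G (sn x k) ∂ν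
    apply integral_congr_ae
    refine Eventually.of_forall fun k => ?_
    show G (sn x k) = fourier (-0) k * G (sn x k)
    rw [neg_zero, fourier_zero, one_mul]
  · intro θ f _ a
    refine Eventually.of_forall fun x => ?_
    have h1 : fib (fun y => G (SA θ f y)) a x =
        ∫ k, fourier (-a) ((k + f x) - f x) * G (sn (x + θ) (k + f x)) ∂ν := by
      apply integral_congr_ae
      refine Eventually.of_forall fun k => ?_
      show fourier (-a) k * G (SA θ f (sn x k)) =
        fourier (-a) ((k + f x) - f x) * G (sn (x + θ) (k + f x))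
      rw [add_sub_cancel_right, SA_sn]
    rw [h1, integral_add_right_eq_self
      (fun k => (fourier (-a) (k - f x) : ℂ) * G (sn (x + θ) k)) (f x)]
    show _ = fourier a (f x) * ∫ k, fourier (-a) k * G (sn (x + θ) k) ∂ν
    rw [← integral_const_mul]
    apply integral_congr_ae
    refine Eventually.of_forall fun k => ?_
    show fourier (-a) (k - f x) * G (sn (x + θ) k) =
      fourier a (f x) * (fourier (-a) k * G (sn (x + θ) k))
    have h3 : (fourier (-a) (k - f x) : ℂ) = fourier a (f x) * fourier (-a) k := by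
      rw [fourier_apply, fourier_apply, fourier_apply, ← Circle.coe_mul, ← AddCircle.toCircle_add]
      congr 2
      rw [smul_sub, sub_eq_add_neg, neg_smul a (f x), neg_neg, add_comm]
    rw [h3, mul_assoc]

end Pool.Agent.Helper67.JZ
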