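import Pool.Agent.Helper67.JZ.FIB

/-! MPA: the skew product preserves the measure and is a homeomorphism (MP_7a8f48_an). -/

open Finset Filter MeasureTheory Topology

namespace Pool.Agent.Helper67.JZ

open Pool.Agent.Helper16.AZ (T mm)
open Pool.Agent.Helper40.JZ

theorem snE_symm_apply (r : ℕ) (y : T (r + 1)) : (snE r).symm y = (ini y, las y) := by
  rw [MeasurableEquiv.symm_apply_eq, snE_apply, sn_ini_las]

/-- the skew product on the product space -/
theorem mp_skew {r : ℕ} (θ : T r) {f : T r → U} (hf : Measurable f) :
    MeasurePreserving (fun z : T r × U => (z.1 + θ, z.2 + f z.1))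
      ((mm r).prod (AddCircle.haarAddCircle : Measure U))
      ((mm r).prod (AddCircle.haarAddCircle : Measure U)) := by
  have h1 : MeasurePreserving (fun x : T r => x + θ) (mm r) (mm r) :=
    measurePreserving_add_right (mm r) θ
  have h2 : Measurable (Function.uncurry fun (x : T r) (k : U) => k + f x) :=
    measurable_snd.add (hf.comp measurable_fst)
  exact h1.skew_product h2 (Eventually.of_forall fun x =>
    (measurePreserving_add_right (AddCircle.haarAddCircle : Measure U) (f x)).map_eq)

/-- the skew product preserves the measure -/
theorem mp_SA {r : ℕ} (θ : T r) {f : T r → U} (hf : Measurable f) :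
    MeasurePreserving (SA θ f) (mm (r + 1)) (mm (r + 1)) := by
  have h := ((mp_sn r).comp (mp_skew θ hf)).comp (mp_snE r).symm
  have e : (fun z : T r × U => sn z.1 z.2) ∘ (fun z : T r × U => (z.1 + θ, z.2 + f z.1)) ∘
      (snE r).symm = SA θ f := by
    funext y
    show sn (((snE r).symm y).1 + θ) (((snE r).symm y).2 + f ((snE r).symm y).1) = SA θ f y
    rw [snE_symm_apply]
    rfl
  rw [← e]
  exact h

theorem st_MPA : ST_FIB → ST_MPA := by
  intro _ r θ f hf
  refine ⟨mp_SA θ hf.measurable, ?_⟩
  refine ⟨{ toFun := SA θ f
            invFun := fun y => sn (ini y - θ) (las y - f (ini y - θ))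
            left_inv := ?_
            right_inv := ?_
            continuous_toFun := continuous_SA θ hf
            continuous_invFun := ?_ }, fun y => rfl⟩
  · intro y
    show sn (ini (sn (ini y + θ) (las y + f (ini y))) - θ)
      (las (sn (ini y + θ) (las y + f (ini y))) -
        f (ini (sn (ini y + θ) (las y + f (ini y))) - θ)) = y
    rw [ini_sn, las_sn, add_sub_cancel_right, add_sub_cancel_right, sn_ini_las]
  · intro y
    show SA θ f (sn (ini y - θ) (las y - f (ini y - θ))) = y
    rw [SA_sn, sub_add_cancel, sub_add_cancel, sn_ini_las]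
  · have h1 : Continuous fun y : T (r + 1) => (ini y - θ, las y - f (ini y - θ)) :=
      (continuous_ini.sub continuous_const).prodMk
        (continuous_las.sub (hf.comp (continuous_ini.sub continuous_const)))
    exact continuous_sn.comp h1

end Pool.Agent.Helper67.JZ
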