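import Pool.Agent.Helper67.JZ.NRT
import Pool.Agent.Helper67.JZ.MPA

/-! SKN: the kernels of the masses are stationary and positive definite (MP_7a8f48_an). -/

open Finset Filter MeasureTheory Topology
open scoped ComplexConjugate InnerProductSpace

namespace Pool.Agent.Helper67.JZ

open Pool.Agent.Helper16.AZ (T E Op mm)
open Pool.Agent.Helper16.BZ (Wk EE)
open Pool.Agent.Helper40.DZ (RI UR SK EE_RI Wk_RI)
open Pool.Agent.Helper40.JZ

/-- the circle -/
local instance : IsProbabilityMeasure (AddCircle.haarAddCircle : Measure U) := inferInstance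

/-- the square norm of the mean of the fibres as an average of correlations -/
theorem ms_zero {r q : ℕ} {G : T (r + 1) → ℂ} (hG : RI G) :
    ((ms q (fun _ _ => 0) 0 (fib G 0) : ℝ) : ℂ) = (((1 / (q : ℝ) ^ (2 * r) : ℝ)) : ℂ) *
      ∑ i : {s // s ∈ tor r q} × {s // s ∈ tor r q},
        ∫ z : T r × (U × U), G (sn (z.1 + i.1) z.2.1) * conj (G (sn (z.1 + i.2) z.2.2))
          ∂((mm r).prod ((AddCircle.haarAddCircle : Measure U).prod
            (AddCircle.haarAddCircle : Measure U))) := by
  set ν : Measure U := AddCircle.haarAddCircle with hν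
  obtain ⟨C, hC⟩ := hG.2
  have mp1 : ∀ s : T r, MeasurePreserving (fun z : T r × (U × U) => sn (z.1 + s) z.2.1)
      ((mm r).prod (ν.prod ν)) (mm (r + 1)) := fun s =>
    (mp_sn r).comp ((measurePreserving_add_right (mm r) s).prod measurePreserving_fst)
  have mp2 : ∀ s : T r, MeasurePreserving (fun z : T r × (U × U) => sn (z.1 + s) z.2.2)
      ((mm r).prod (ν.prod ν)) (mm (r + 1)) := fun s =>
    (mp_sn r).comp ((measurePreserving_add_right (mm r) s).prod measurePreserving_snd)
  have hint : ∀ s s' : T r, Integrable (fun z : T r × (U × U) =>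
      G (sn (z.1 + s) z.2.1) * conj (G (sn (z.1 + s') z.2.2))) ((mm r).prod (ν.prod ν)) := by
    intro s s'
    have h1 : AEStronglyMeasurable (fun z : T r × (U × U) => G (sn (z.1 + s) z.2.1))
        ((mm r).prod (ν.prod ν)) := hG.aesm.comp_measurePreserving (mp1 s)
    have h2 : AEStronglyMeasurable (fun z : T r × (U × U) => G (sn (z.1 + s') z.2.2))
        ((mm r).prod (ν.prod ν)) := hG.aesm.comp_measurePreserving (mp2 s')
    refine Integrable.of_bound (h1.mul (Complex.continuous_conj.comp_aestronglyMeasurable h2))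
      (C * C) (Eventually.of_forall fun z => ?_)
    rw [norm_mul, RCLike.norm_conj]
    exact mul_le_mul (hC _) (hC _) (norm_nonneg _) ((norm_nonneg _).trans (hC 0))
  have hA : ∀ s s' : T r, ∫ z : T r × (U × U),
      G (sn (z.1 + s) z.2.1) * conj (G (sn (z.1 + s') z.2.2)) ∂((mm r).prod (ν.prod ν)) =
      ∫ x, fib G 0 (x + s) * conj (fib G 0 (x + s')) ∂(mm r) := by
    intro s s'
    rw [integral_prod _ (hint s s')]
    refine integral_congr_ae (Eventually.of_forall fun x => ?_)
    show ∫ w : U × U, G (sn (x + s) w.1) * conj (G (sn (x + s') w.2)) ∂(ν.prod ν) =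
      fib G 0 (x + s) * conj (fib G 0 (x + s'))
    rw [integral_prod_mul (fun κ => G (sn (x + s) κ)) (fun κ => conj (G (sn (x + s') κ))),
      integral_conj]
    have e : ∀ y : T r, fib G 0 y = ∫ κ, G (sn y κ) ∂ν := by
      intro y
      unfold fib
      refine integral_congr_ae (Eventually.of_forall fun k => ?_)
      show (fourier (-0) k : ℂ) * G (sn y k) = G (sn y k)
      rw [neg_zero, fourier_zero, one_mul]
    rw [e, e]
  have hB : ∀ s s' : T r, Integrable (fun x => fib G 0 (x + s) * conj (fib G 0 (x + s')))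
      (mm r) := by
    intro s s'
    have h := (hint s s').integral_prod_left
    refine h.congr (Eventually.of_forall fun x => ?_)
    show ∫ w : U × U, G (sn (x + s) w.1) * conj (G (sn (x + s') w.2)) ∂(ν.prod ν) =
      fib G 0 (x + s) * conj (fib G 0 (x + s'))
    rw [integral_prod_mul (fun κ => G (sn (x + s) κ)) (fun κ => conj (G (sn (x + s') κ))),
      integral_conj]
    have e : ∀ y : T r, fib G 0 y = ∫ κ, G (sn y κ) ∂ν := by
      intro y
      unfold fib
      refine integral_congr_ae (Eventually.of_forall fun k => ?_)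
      show (fourier (-0) k : ℂ) * G (sn y k) = G (sn y k)
      rw [neg_zero, fourier_zero, one_mul]
    rw [e, e]
  have hC2 : ((ms q (fun _ _ => 0) 0 (fib G 0) : ℝ) : ℂ) =
      ∫ x, (((1 / (q : ℝ) ^ (2 * r) : ℝ)) : ℂ) * ∑ i : {s // s ∈ tor r q} × {s // s ∈ tor r q},
        fib G 0 (x + i.1) * conj (fib G 0 (x + i.2)) ∂(mm r) := by
    unfold ms
    rw [← integral_complex_ofReal]
    refine integral_congr_ae (Eventually.of_forall fun x => ?_)
    show (((‖pj q (fun _ _ => 0) 0 (fib G 0) x‖ ^ 2 : ℝ)) : ℂ) =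
      (((1 / (q : ℝ) ^ (2 * r) : ℝ)) : ℂ) * ∑ i : {s // s ∈ tor r q} × {s // s ∈ tor r q},
        fib G 0 (x + i.1) * conj (fib G 0 (x + i.2))
    have e1 : pj q (fun _ _ => (0 : U)) 0 (fib G 0) x =
        (∑ s : {s // s ∈ tor r q}, fib G 0 (x + s)) / (q : ℂ) ^ r := by
      unfold pj
      congr 1
      rw [Finset.sum_coe_sort (tor r q) (fun s => fib G 0 (x + s))]
      refine Finset.sum_congr rfl fun s _ => ?_
      rw [fourier_zero, one_mul]
    have e2 : ∑ i : {s // s ∈ tor r q} × {s // s ∈ tor r q},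
        fib G 0 (x + i.1) * conj (fib G 0 (x + i.2)) =
        (∑ s : {s // s ∈ tor r q}, fib G 0 (x + s)) *
          ∑ s : {s // s ∈ tor r q}, conj (fib G 0 (x + s)) := by
      rw [Fintype.sum_prod_type]
      exact (Finset.sum_mul_sum _ _ (fun s : {s // s ∈ tor r q} => fib G 0 (x + s))
        (fun s : {s // s ∈ tor r q} => conj (fib G 0 (x + s)))).symm
    rw [e1, e2, Complex.ofReal_pow, ← Complex.mul_conj', map_div₀, map_sum, map_pow,
      Complex.conj_natCast]
    push_cast
    rw [div_mul_div_comm, ← pow_add, two_mul, one_div, inv_mul_eq_div]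
  rw [hC2, integral_const_mul, integral_finset_sum _ fun i _ => hB i.1 i.2]
  congr 1
  refine Finset.sum_congr rfl fun i _ => ?_
  exact (hA i.1 i.2).symm

theorem st_SKN : ST_TOR → ST_FIB → ST_NTF → ST_MPA → ST_RTM → ST_MTR → ST_NRT →
    Pool.Agent.Helper40.DZ.ST_NRV → ST_SKN := by
  intro _ _ hNTF _ hRTM hMTR hNRT _ r θ f hf q t d φ c hq ht hφ hc
  set S : T (r + 1) → T (r + 1) := SA θ f with hSdef
  have hS : Continuous S := continuous_SA θ hf
  have hmp : MeasurePreserving S (mm (r + 1)) (mm (r + 1)) := mp_SA θ hf.measurable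
  have hcRI : RI c := RI.of_continuous hc
  have hg : ∀ k, RI (Wk S φ k c) := fun k => Wk_RI hS hmp hφ hcRI k
  have hE : ∀ k k', RI (EE S φ c k k') := fun k k' => EE_RI hS hmp hφ hcRI k k'
  have hshift : ∀ k k', EE S φ c (k + 1) (k' + 1) = fun y => EE S φ c k k' (S y) := by
    intro k k'
    funext y
    exact Pool.Agent.Helper16.BZ.EE_shift S φ c hφ.2 k k' 1 y
  choose C hC using fun k => (hg k).2
  refine ⟨⟨?_, ?_⟩, ⟨?_, ?_⟩⟩
  · rcases t with _ | ⟨a, D⟩
    · -- the canonical type
      set ν : Measure U := AddCircle.haarAddCircle with hν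
      obtain ⟨V, i1, i2, i3, w, hw⟩ := gramF (Ω := T r × (U × U))
        (ι := {s // s ∈ tor r q} × {s // s ∈ tor r q}) ((mm r).prod (ν.prod ν))
        (1 / (q : ℝ) ^ (2 * r)) (by positivity)
        (fun i k z => Wk S φ k c (sn (z.1 + i.1) z.2.1))
        (fun i k z => Wk S φ k c (sn (z.1 + i.2) z.2.2)) C
        (fun i k => (hg k).aesm.comp_measurePreserving ((mp_sn r).comp
          ((measurePreserving_add_right (mm r) (i.1 : T r)).prod measurePreserving_fst)))
        (fun i k => (hg k).aesm.comp_measurePreserving ((mp_sn r).comp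
          ((measurePreserving_add_right (mm r) (i.2 : T r)).prod measurePreserving_snd)))
        (fun i k z => hC k _) (fun i k z => hC k _)
      refine ⟨V, i1, i2, i3, w, fun k k' => ?_⟩
      rw [hw k k']
      exact (ms_zero (hE k k')).symm
    · obtain ⟨ρ, hρ, hρ2⟩ := hRTM a ht.1
      obtain ⟨V, i1, i2, i3, w, hw⟩ := hNRT (r + 1) d ({s // s ∈ tor r q} × Fin a.natAbs)
        (fun i y => sn (ini y + i.1) (las y + (ρ (D i.1 (ini y)) +
          (((((i.2 : Fin a.natAbs) : ℕ) : ℝ) / (a.natAbs : ℝ) : ℝ) : U))))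
        (1 / ((q : ℝ) ^ r * (a.natAbs : ℝ))) (fun k => Wk S φ k c) (by positivity)
        (fun i => mp_SA (i.1 : T r) ((hρ.comp (ht.2.1 i.1 i.1.2)).add_const _)) hg
      refine ⟨V, i1, i2, i3, w, fun k k' => ?_⟩
      rw [hw k k']
      show _ = ((NT q (some (a, D)) (EE S φ c k k') : ℝ) : ℂ)
      rw [hMTR r θ f q a D ρ (EE S φ c k k') hq ht.1 ht.2 hρ hρ2 (hE k k'), Fintype.sum_prod_type,
        ← Finset.sum_coe_sort (tor r q)]
      push_cast
      rw [div_mul_eq_mul_div, one_mul]
      congr 1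
      refine Finset.sum_congr rfl fun s _ => ?_
      rw [← Fin.sum_univ_eq_sum_range (fun l : ℕ => ∫ y, EE S φ c k k' (sn (ini y + s)
        (las y + (ρ (D s (ini y)) + (((l : ℝ) / (a.natAbs : ℝ) : ℝ) : U)))) *
        conj (EE S φ c k k' y) ∂(mm (r + 1)))]
      rfl
  · intro k k'
    show NT q t (EE S φ c (k + 1) (k' + 1)) = NT q t (EE S φ c k k')
    rw [hshift k k']
    exact (hNTF r θ f q t (EE S φ c k k') (EE S φ c k k') hq hf.measurable ht
      ((hE k k').memLp 2) ((hE k k').memLp 2)).2.2.2.1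
  · obtain ⟨V, i1, i2, i3, w, hw⟩ := gramF (Ω := T (r + 1) × T (r + 1)) (ι := Unit)
      ((mm (r + 1)).prod (mm (r + 1))) 1 (by norm_num)
      (fun _ k z => Wk S φ k c z.1) (fun _ k z => Wk S φ k c z.2) C
      (fun _ k => (hg k).aesm.comp_measurePreserving measurePreserving_fst)
      (fun _ k => (hg k).aesm.comp_measurePreserving measurePreserving_snd)
      (fun _ k z => hC k _) (fun _ k z => hC k _)
    refine ⟨V, i1, i2, i3, w, fun k k' => ?_⟩
    rw [hw k k']
    have e : ∫ z : T (r + 1) × T (r + 1), EE S φ c k k' z.1 * conj (EE S φ c k k' z.2)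
        ∂((mm (r + 1)).prod (mm (r + 1))) =
        ((‖∫ y, EE S φ c k k' y ∂(mm (r + 1))‖ ^ 2 : ℝ) : ℂ) := by
      rw [integral_prod_mul (fun y => EE S φ c k k' y) (fun y => conj (EE S φ c k k' y)),
        integral_conj, Complex.mul_conj', Complex.ofReal_pow]
    rw [← e, Finset.univ_unique, Finset.sum_singleton, Complex.ofReal_one, one_mul]
    rfl
  · intro k k'
    show ‖∫ y, EE S φ c (k + 1) (k' + 1) y ∂(mm (r + 1))‖ ^ 2 = _
    rw [hshift k k']
    congr 2
    have h1 := integral_map hmp.measurable.aemeasurable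
      (by rw [hmp.map_eq]; exact (hE k k').aesm)
    rw [hmp.map_eq] at h1
    exact h1.symm

end Pool.Agent.Helper67.JZ
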