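import Pool.Agent.Helper40.JZ.Stmts

/-! TOR: the torsion points (MP_7a8f48_an). -/

open Finset Filter MeasureTheory Topology

namespace Pool.Agent.Helper67.JZ

open Pool.Agent.Helper16.AZ (T mm)
open Pool.Agent.Helper40.JZ

theorem mem_tor {r q : ℕ} (hq : 1 ≤ q) (s : T r) : s ∈ tor r q ↔ q • s = 0 := by
  have hq0 : 0 < q := hq
  unfold tor
  rw [Fintype.mem_piFinset]
  constructor
  · intro h
    funext i
    obtain ⟨j, hj, hj2⟩ := Finset.mem_image.1 (h i)
    rw [Pi.smul_apply, Pi.zero_apply]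
    refine (AddCircle.nsmul_eq_zero_iff (p := (1 : ℝ)) hq0).2
      ⟨j, Finset.mem_range.1 hj, ?_⟩
    rw [mul_one]
    exact hj2
  · intro h i
    have h1 : q • s i = 0 := by
      rw [← Pi.smul_apply, h, Pi.zero_apply]
    obtain ⟨j, hj, hj2⟩ := (AddCircle.nsmul_eq_zero_iff (p := (1 : ℝ)) hq0).1 h1
    rw [mul_one] at hj2
    exact Finset.mem_image.2 ⟨j, Finset.mem_range.2 hj, hj2⟩

theorem card_tor {r q : ℕ} (hq : 1 ≤ q) : (tor r q).card = q ^ r := by
  unfold tor
  rw [Fintype.card_piFinset_const]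
  have hinj : Set.InjOn (fun j : ℕ => (((j : ℝ) / (q : ℝ) : ℝ) : U)) (range q : Set ℕ) := by
    intro i hi j hj hij
    rw [Finset.mem_coe, Finset.mem_range] at hi hj
    have hq' : (0 : ℝ) < q := by exact_mod_cast hq
    have hi2 : (i : ℝ) / q ∈ Set.Ico (0 : ℝ) (0 + 1) := by
      refine ⟨by positivity, ?_⟩
      rw [zero_add, div_lt_one hq']
      exact_mod_cast hi
    have hj2 : (j : ℝ) / q ∈ Set.Ico (0 : ℝ) (0 + 1) := by
      refine ⟨by positivity, ?_⟩
      rw [zero_add, div_lt_one hq']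
      exact_mod_cast hj
    have h := (AddCircle.coe_eq_coe_iff_of_mem_Ico hi2 hj2).1 hij
    have h2 : (i : ℝ) = j := by
      field_simp at h
      exact h
    exact_mod_cast h2
  rw [Finset.card_image_of_injOn hinj, Finset.card_range]

/-- `p` is invertible on the points of order `q` -/
theorem tor_inv {r p q : ℕ} (hc : Nat.Coprime p q) :
    ∃ a : ℤ, ∀ s : T r, q • s = 0 → p • (a • s) = s ∧ a • (p • s) = s := by
  refine ⟨Nat.gcdA p q, fun s hs => ?_⟩
  have hb : (p : ℤ) * Nat.gcdA p q + (q : ℤ) * Nat.gcdB p q = 1 := by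
    have h := Nat.gcd_eq_gcd_ab p q
    rw [Nat.Coprime.gcd_eq_one hc] at h
    push_cast at h
    exact h.symm
  have hqs : (q : ℤ) • s = 0 := by
    rw [natCast_zsmul]
    exact hs
  have h1 : ((p : ℤ) * Nat.gcdA p q) • s = s := by
    have h2 : ((p : ℤ) * Nat.gcdA p q + (q : ℤ) * Nat.gcdB p q) • s = s := by
      rw [hb, one_zsmul]
    rw [add_zsmul, mul_zsmul' s (q : ℤ) (Nat.gcdB p q), hqs, smul_zero, add_zero] at h2
    exact h2
  constructor
  · rw [← natCast_zsmul, ← mul_zsmul]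
    exact h1
  · rw [← natCast_zsmul, ← mul_zsmul']
    exact h1

theorem st_TOR : ST_TOR := by
  intro r q hq
  have hm := fun s : T r => mem_tor hq s
  refine ⟨hm, card_tor hq, ?_, ?_, ?_⟩
  · intro s₀ hs₀ F
    have h0 := (hm s₀).1 hs₀
    refine Finset.sum_nbij' (fun s => s + s₀) (fun s => s - s₀) ?_ ?_ ?_ ?_ ?_
    · intro s hs
      refine (hm _).2 ?_
      rw [smul_add, (hm s).1 hs, h0, add_zero]
    · intro s hs
      refine (hm _).2 ?_
      rw [smul_sub, (hm s).1 hs, h0, sub_zero]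
    · intro s _
      exact add_sub_cancel_right s s₀
    · intro s _
      exact sub_add_cancel s s₀
    · intro s _
      rfl
  · intro p hc F
    obtain ⟨a, ha⟩ := tor_inv (r := r) hc
    refine Finset.sum_nbij' (fun s => p • s) (fun s => a • s) ?_ ?_ ?_ ?_ ?_
    · intro s hs
      refine (hm _).2 ?_
      rw [smul_comm, (hm s).1 hs, smul_zero]
    · intro s hs
      refine (hm _).2 ?_
      rw [smul_comm, (hm s).1 hs, smul_zero]
    · intro s hs
      exact (ha s ((hm s).1 hs)).2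
    · intro s hs
      exact (ha s ((hm s).1 hs)).1
    · intro s _
      rfl
  · intro p hc s hs
    obtain ⟨a, ha⟩ := tor_inv (r := r) hc
    refine ⟨a • s, ?_, (ha s ((hm s).1 hs)).1⟩
    refine (hm _).2 ?_
    rw [smul_comm, (hm s).1 hs, smul_zero]

end Pool.Agent.Helper67.JZ
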